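import Pool.Agent.Helper58.LC.Goals

/-!
# PROJECT LC (MP_957450_co): packet CC
-/

set_option autoImplicit false

open Classical Finset

namespace Pool.Agent.Helper84.LC.CC

open Pool.Agent.Helper58.LC

theorem count {I J : Type} (i₀ : I) (V W : J → Finset I) (P : J → Prop) (Q : Finset J)
    (hW : ∀ j, W j = if P j then insert i₀ (V j) else V j) :
    (Q.image W).card ≤ (Q.image V).card +
      ((Q.filter P).image V ∩ (Q.filter fun j => ¬ P j).image V).card := by
  set A := (Q.filter P).image V with hA
  set B := (Q.filter fun j => ¬ P j).image V with hB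
  have h1 : Q.image W ⊆ A.image (insert i₀) ∪ B := by
    intro C hC
    obtain ⟨j, hj, rfl⟩ := Finset.mem_image.1 hC
    rw [hW j]
    by_cases h : P j
    · rw [if_pos h]
      exact Finset.mem_union_left _ (Finset.mem_image_of_mem _ (Finset.mem_image_of_mem _
        (Finset.mem_filter.2 ⟨hj, h⟩)))
    · rw [if_neg h]
      exact Finset.mem_union_right _ (Finset.mem_image_of_mem _ (Finset.mem_filter.2 ⟨hj, h⟩))
  have h2 : A ∪ B ⊆ Q.image V := by
    refine Finset.union_subset ?_ ?_
    · exact Finset.image_subset_image (Finset.filter_subset _ _)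
    · exact Finset.image_subset_image (Finset.filter_subset _ _)
  have h3 := Finset.card_union_add_card_inter A B
  have h4 : (Q.image W).card ≤ A.card + B.card :=
    (Finset.card_le_card h1).trans ((Finset.card_union_le _ _).trans
      (Nat.add_le_add_right Finset.card_image_le _))
  have h5 := Finset.card_le_card h2
  omega

/-- The convex combination. -/
theorem comb (a b a' b' x₀ y₀ : ℝ) (h : a * x₀ + b < y₀) (h' : ¬ a' * x₀ + b' < y₀) :
    ∃ u : ℝ, ∀ x y : ℝ, ((a * x + b < y ↔ a' * x + b' < y) →
      ((x - x₀) * u + (y₀ - y) < 0 ↔ a * x + b < y)) := by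
  push Not at h'
  set g0 := y₀ - (a * x₀ + b) with hg0
  set g1 := a' * x₀ + b' - y₀ with hg1
  have p0 : 0 < g0 := by linarith
  have p1 : 0 ≤ g1 := by linarith
  have ps : 0 < g0 + g1 := by linarith
  refine ⟨(g1 * a + g0 * a') / (g0 + g1), ?_⟩
  intro x y hiff
  have key : (g0 + g1) * ((x - x₀) * ((g1 * a + g0 * a') / (g0 + g1)) + (y₀ - y)) =
      g1 * (a * x + b - y) + g0 * (a' * x + b' - y) := by
    field_simp
    rw [hg0, hg1]
    ring
  constructor
  · intro h1
    by_contra h2
    have h3 : ¬ a' * x + b' < y := fun h4 => h2 (hiff.2 h4)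
    push Not at h2 h3
    have h4 : (g0 + g1) * ((x - x₀) * ((g1 * a + g0 * a') / (g0 + g1)) + (y₀ - y)) < 0 :=
      mul_neg_of_pos_of_neg ps h1
    rw [key] at h4
    have h5 : 0 ≤ g1 * (a * x + b - y) := mul_nonneg p1 (by linarith)
    have h6 : 0 ≤ g0 * (a' * x + b' - y) := mul_nonneg p0.le (by linarith)
    linarith
  · intro h1
    have h3 := hiff.1 h1
    have h5 : g1 * (a * x + b - y) ≤ 0 := mul_nonpos_of_nonneg_of_nonpos p1 (by linarith)
    have h6 : g0 * (a' * x + b' - y) < 0 := mul_neg_of_pos_of_neg p0 (by linarith)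
    by_contra h2
    push Not at h2
    have h4 : 0 ≤ (g0 + g1) * ((x - x₀) * ((g1 * a + g0 * a') / (g0 + g1)) + (y₀ - y)) :=
      mul_nonneg ps.le h2
    rw [key] at h4
    linarith

theorem t (h : CC1) : CC := by
  intro I J x y α β T Q
  induction T using Finset.induction_on with
  | empty =>
    have h1 : Q.image (fun j => (∅ : Finset I).filter (fun i => α j * x i + β j < y i)) ⊆ {∅} := by
      intro A hA
      obtain ⟨j, -, rfl⟩ := Finset.mem_image.1 hA
      simp
    have h2 := Finset.card_le_card h1
    rw [Finset.card_singleton] at h2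
    omega
  | insert i₀ T hi ih =>
    set V : J → Finset I := fun j => T.filter (fun i => α j * x i + β j < y i) with hV
    set P : J → Prop := fun j => α j * x i₀ + β j < y i₀ with hP
    have h1 := count i₀ V (fun j => (insert i₀ T).filter (fun i => α j * x i + β j < y i)) P Q
      (fun j => by
        simp only [hV, hP, Finset.filter_insert])
    set D := (Q.filter P).image V ∩ (Q.filter fun j => ¬ P j).image V with hD
    have hex : ∀ σ ∈ D, ∃ u : ℝ, T.filter (fun i => (x i - x i₀) * u + (y i₀ - y i) < 0) = σ := by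
      intro σ hσ
      obtain ⟨hσ1, hσ2⟩ := Finset.mem_inter.1 hσ
      obtain ⟨j, hj, hjσ⟩ := Finset.mem_image.1 hσ1
      obtain ⟨k, hk, hkσ⟩ := Finset.mem_image.1 hσ2
      obtain ⟨u, hu⟩ := comb (α j) (β j) (α k) (β k) (x i₀) (y i₀) (Finset.mem_filter.1 hj).2
        (Finset.mem_filter.1 hk).2
      refine ⟨u, ?_⟩
      rw [← hjσ]
      refine Finset.filter_congr fun i hiT => hu (x i) (y i) ?_
      have e1 : i ∈ V j ↔ i ∈ V k := by rw [hjσ, hkσ]
      simp only [hV, Finset.mem_filter, hiT, true_and] at e1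
      exact e1
    choose! u hu using hex
    have h2 := h I (Finset I) (fun i => x i - x i₀) (fun i => y i₀ - y i) u T D
    have h3 : D.image (fun j => T.filter (fun i => (x i - x i₀) * u j + (y i₀ - y i) < 0)) = D := by
      ext σ
      constructor
      · intro hσ
        obtain ⟨τ, hτ, rfl⟩ := Finset.mem_image.1 hσ
        rw [hu τ hτ]
        exact hτ
      · intro hσ
        exact Finset.mem_image.2 ⟨σ, hσ, hu σ hσ⟩
    rw [h3] at h2
    rw [Finset.card_insert_of_notMem hi]
    have h4 : (T.card + 1) ^ 2 = T.card ^ 2 + 2 * T.card + 1 := by ring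
    rw [h4]
    have h5 := h1.trans (Nat.add_le_add ih h2)
    refine h5.trans ?_
    omega

end Pool.Agent.Helper84.LC.CC
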